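import Pool.Agent.P8H47.FP.Stm

/-! # Project FP, package DESC: descent of solutions of embedding problems along a quadratic extension -/

set_option autoImplicit false

namespace Pool.Agent.P8H54.FP

open Pool.Agent.P8H47.FP

section gen

variable {F K : Type} [Field F] [Field K] [Algebra F K]

theorem mem_Fx {H : Subgroup (K ≃ₐ[F] K)} {x : K} : x ∈ Fx H ↔ ∀ h ∈ H, h x = x := by
  unfold Fx
  rw [IntermediateField.mem_toSubfield, IntermediateField.mem_fixedField_iff]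

theorem homOn_mono {G P : Type} [Group G] [TopologicalSpace G] [Group P] {U W : Subgroup G} {ψ : G → P}
    (h : HomOn U ψ) (hw : W ≤ U) : HomOn W ψ := by
  refine ⟨fun g hg k hk => h.mul g (hw hg) k (hw hk), ?_⟩
  obtain ⟨V, hV, hv⟩ := h.cont
  exact ⟨V, hV, fun v h1 h2 => hv v h1 (hw h2)⟩

theorem homOn_one {G P : Type} [Group G] [TopologicalSpace G] [Group P] {U : Subgroup G} {ψ : G → P}
    (h : HomOn U ψ) : ψ 1 = 1 := by
  have h1 := h.mul 1 U.one_mem 1 U.one_mem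
  rw [mul_one] at h1
  exact (mul_eq_left.1 h1.symm)

theorem homOn_inv {G P : Type} [Group G] [TopologicalSpace G] [Group P] {U : Subgroup G} {ψ : G → P}
    (h : HomOn U ψ) {g : G} (hg : g ∈ U) : ψ g⁻¹ = (ψ g)⁻¹ := by
  have h1 := h.mul g⁻¹ (U.inv_mem hg) g hg
  rw [inv_mul_cancel, homOn_one h] at h1
  exact eq_inv_of_mul_eq_one_left h1.symm

end gen

section cpsec

variable {P Q : Type} [Group P] [Group Q]

theorem cp_one' (c : P) : cp c 1 = 1 := by simp [cp]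

theorem cp_mul' {c : P} (h2 : c * c = 1) (a b : ℤˣ) : cp c (a * b) = cp c a * cp c b := by
  rcases Int.units_eq_one_or a with rfl | rfl <;> rcases Int.units_eq_one_or b with rfl | rfl <;> simp [cp, h2]

theorem cp_comm' {c : P} (h : ∀ x, x * c = c * x) (a : ℤˣ) (x : P) : x * cp c a = cp c a * x := by
  unfold cp
  split_ifs
  · simp
  · exact h x

theorem cp_inj' {c : P} (h1 : c ≠ 1) {a b : ℤˣ} (h : cp c a = cp c b) : a = b := by
  rcases Int.units_eq_one_or a with rfl | rfl <;> rcases Int.units_eq_one_or b with rfl | rfl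
  · rfl
  · exfalso
    simp only [cp] at h
    simp at h
    exact h1 h.symm
  · exfalso
    simp only [cp] at h
    simp at h
    exact h1 h
  · rfl

theorem c_sq {π : P →* Q} {c : P} (hk : ∀ x, π x = 1 ↔ x = 1 ∨ x = c) (h1 : c ≠ 1) : c * c = 1 := by
  have hc : π c = 1 := (hk c).2 (Or.inr rfl)
  have h3 : π (c * c) = 1 := by rw [map_mul, hc, mul_one]
  rcases (hk _).1 h3 with h | h
  · exact h
  · exact absurd (mul_eq_left.1 h) h1

theorem map_cp {π : P →* Q} {c : P} (hk : ∀ x, π x = 1 ↔ x = 1 ∨ x = c) (a : ℤˣ) : π (cp c a) = 1 := by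
  rw [hk]
  unfold cp
  split_ifs
  · exact Or.inl rfl
  · exact Or.inr rfl

theorem lift_cp {π : P →* Q} {c : P} (hk : ∀ x, π x = 1 ↔ x = 1 ∨ x = c) {x y : P} (h : π x = π y)
    (ε : ℤˣ) (hε : ε = 1 ↔ x = y) : x = y * cp c ε := by
  by_cases hxy : x = y
  · rw [hε.2 hxy, cp_one', mul_one]
    exact hxy
  · have h1 : π (y⁻¹ * x) = 1 := by rw [map_mul, map_inv, h, inv_mul_cancel]
    have h2 : cp c ε = c := by
      unfold cp
      rw [if_neg]
      exact fun h3 => hxy (hε.1 h3)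
    rw [h2]
    rcases (hk _).1 h1 with h3 | h3
    · exact absurd (inv_mul_eq_one.1 h3).symm hxy
    · rw [← h3]
      group

end cpsec

/-- the quadratic data -/
theorem quad {F K : Type} [Field F] [Field K] [Algebra F K] (h2 : (2 : K) ≠ 0)
    {U : Subgroup (K ≃ₐ[F] K)} {r : K} {σ : K ≃ₐ[F] K} (hr2 : r ^ 2 ∈ Fx U) (hr0 : r ≠ 0)
    (hσ : σ ∈ U) (hσr : σ r = - r) :
    (∀ g, g ∈ U ⊓ MulAction.stabilizer (K ≃ₐ[F] K) r ↔ g ∈ U ∧ g r = r) ∧ r ≠ - r ∧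
    (∀ g ∈ U, g r = r ∨ g r = - r) ∧ σ⁻¹ r = - r ∧
    (∀ g ∈ U, g ∉ U ⊓ MulAction.stabilizer (K ≃ₐ[F] K) r → g * σ⁻¹ ∈ U ⊓ MulAction.stabilizer (K ≃ₐ[F] K) r) ∧
    (∀ h ∈ U ⊓ MulAction.stabilizer (K ≃ₐ[F] K) r, σ * h * σ⁻¹ ∈ U ⊓ MulAction.stabilizer (K ≃ₐ[F] K) r) ∧
    σ * σ ∈ U ⊓ MulAction.stabilizer (K ≃ₐ[F] K) r := by
  have hmem : ∀ g, g ∈ U ⊓ MulAction.stabilizer (K ≃ₐ[F] K) r ↔ g ∈ U ∧ g r = r := by
    intro g
    rw [Subgroup.mem_inf, MulAction.mem_stabilizer_iff]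
    rfl
  have hrr : r ≠ - r := by
    intro h
    have h3 : (2 : K) * r = 0 := by linear_combination h
    rcases mul_eq_zero.1 h3 with h4 | h4
    · exact h2 h4
    · exact hr0 h4
  have hdi : ∀ g ∈ U, g r = r ∨ g r = - r := by
    intro g hg
    have h3 := mem_Fx.1 hr2 g hg
    rw [map_pow] at h3
    exact sq_eq_sq_iff_eq_or_eq_neg.1 h3
  have hinv : σ⁻¹ r = - r := by
    have h3 : σ (- r) = r := by rw [map_neg, hσr, neg_neg]
    have h4 : σ⁻¹ (σ (- r)) = - r := by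
      change (σ⁻¹ * σ) (- r) = - r
      rw [inv_mul_cancel]
      rfl
    rw [h3] at h4
    exact h4
  refine ⟨hmem, hrr, hdi, hinv, ?_, ?_, ?_⟩
  · intro g hg hg'
    rw [hmem] at hg' ⊢
    have h3 : g r = - r := by
      rcases hdi g hg with h | h
      · exact absurd ⟨hg, h⟩ hg'
      · exact h
    refine ⟨U.mul_mem hg (U.inv_mem hσ), ?_⟩
    rw [AlgEquiv.mul_apply, hinv, map_neg, h3, neg_neg]
  · intro h hh
    rw [hmem] at hh ⊢
    refine ⟨U.mul_mem (U.mul_mem hσ hh.1) (U.inv_mem hσ), ?_⟩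
    rw [AlgEquiv.mul_apply, AlgEquiv.mul_apply, hinv, map_neg, hh.2, map_neg, hσr, neg_neg]
  · rw [hmem]
    refine ⟨U.mul_mem hσ hσ, ?_⟩
    rw [AlgEquiv.mul_apply, hσr, map_neg, hσr, neg_neg]

theorem desc : S_DESC := by
  intro kum ext char locn twist F K _ _ _ _ h2 hsq ι U H hU hH hLG r σ hr2 hr0 hσ hσr P Q _ _ π c hsurj hk hc1
    hcc ψ hψ hθ' hemb
  classical
  obtain ⟨θ', hθ, hπθ⟩ := hθ'
  obtain ⟨hmem, hrr, hdi, hinv, hout, hconj, hsqm⟩ := quad h2 hr2 hr0 hσ hσr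
  set U' : Subgroup (K ≃ₐ[F] K) := U ⊓ MulAction.stabilizer (K ≃ₐ[F] K) r with hU'
  have hc2 : c * c = 1 := c_sq hk hc1
  have hle : U' ≤ U := inf_le_left
  have hσn : σ ∉ U' := by
    rw [hmem, hσr]
    exact fun h => hrr h.2.symm
  have hopen : IsOpen ((MulAction.stabilizer (K ≃ₐ[F] K) r : Subgroup (K ≃ₐ[F] K)) : Set (K ≃ₐ[F] K)) :=
    stabilizer_isOpen_of_isIntegral r
  have hV : ∃ V : Subgroup (K ≃ₐ[F] K), IsOpen (V : Set (K ≃ₐ[F] K)) ∧ ∀ v ∈ V, v ∈ U → v ∈ U' :=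
    ⟨_, hopen, fun v h1 h2 => Subgroup.mem_inf.2 ⟨h2, h1⟩⟩
  -- the character
  obtain ⟨X, hX, hXf⟩ := char (K ≃ₐ[F] K) P Q π c hsurj hk hc1 hcc U U' σ hle hσ hσn hout hconj hsqm hV ψ hψ θ' hθ
    (fun h hh => hπθ h (hle hh) ((hmem h).1 hh).2)
  obtain ⟨s, hs0, hs⟩ := kum F K U hU X hX
  have hXsq : ∀ g, ((((X g : ℤˣ) : ℤ) : K)) ^ 2 = 1 := by
    intro g
    rcases Int.units_eq_one_or (X g) with h | h <;> rw [h] <;> simp
  have hs2 : s ^ 2 ∈ Fx U := by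
    rw [mem_Fx]
    intro h hh
    rw [map_pow, hs h hh, mul_pow, hXsq, one_mul]
  -- local norms
  have hloc : ∀ i, Nm (Fx (H i)) (r ^ 2) (s ^ 2) := by
    intro i
    have hs2i : s ^ 2 ∈ Fx (H i) := hLG.le i hs2
    by_cases hri : ∀ h ∈ H i, h r = r
    · have hri' : r ∈ Fx (H i) := mem_Fx.2 hri
      have h2i : (2 : K) ∈ Fx (H i) := ofNat_mem _ 2
      refine ⟨(s ^ 2 + 1) / 2, div_mem (add_mem hs2i (one_mem _)) h2i, (s ^ 2 - 1) / (2 * r),
        div_mem (sub_mem hs2i (one_mem _)) (mul_mem h2i hri'), ?_⟩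
      field_simp
      ring
    · push Not at hri
      obtain ⟨τ, hτ, hτr⟩ := hri
      have hτU : τ ∈ U := (hH i).1 hτ
      have hτr' : τ r = - r := (hdi τ hτU).resolve_left hτr
      have hτn : τ ∉ U' := fun h => hτr ((hmem τ).1 h).2
      obtain ⟨φ, hφ, hπφ⟩ := hemb i
      obtain ⟨hf1, hf2⟩ := hXf τ hτU hτn (φ τ) (hπφ τ hτ)
      let δ : (K ≃ₐ[F] K) → ℤˣ := fun h => if θ' h = φ h then 1 else -1
      have hδ1 : ∀ h, δ h = 1 ↔ θ' h = φ h := by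
        intro h
        simp only [δ]
        split_ifs with h3
        · simp [h3]
        · simp [h3]
      have hmemi : ∀ g, g ∈ H i ⊓ MulAction.stabilizer (K ≃ₐ[F] K) r ↔ g ∈ H i ∧ g r = r := by
        intro g
        rw [Subgroup.mem_inf, MulAction.mem_stabilizer_iff]
        rfl
      have hiU' : H i ⊓ MulAction.stabilizer (K ≃ₐ[F] K) r ≤ U' := inf_le_inf_right _ (hH i).1
      have hθφ : ∀ h ∈ H i, h r = r → θ' h = φ h * cp c (δ h) := by
        intro h hh hhr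
        apply lift_cp hk _ _ (hδ1 h)
        rw [hπθ h ((hH i).1 hh) hhr, hπφ h hh]
      have hτconj : ∀ h ∈ H i, h r = r → τ * h * τ⁻¹ ∈ H i ∧ (τ * h * τ⁻¹) r = r := by
        intro h hh hhr
        refine ⟨(H i).mul_mem ((H i).mul_mem hτ hh) ((H i).inv_mem hτ), ?_⟩
        have hτi : τ⁻¹ r = - r := (quad h2 (hLG.le i hr2) hr0 hτ hτr').2.2.2.1
        rw [AlgEquiv.mul_apply, AlgEquiv.mul_apply, hτi, map_neg, hhr, map_neg, hτr', neg_neg]
      have hδh : HomOn (H i ⊓ MulAction.stabilizer (K ≃ₐ[F] K) r) δ := by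
        constructor
        · intro g hg h hh
          have hg' := (hmemi g).1 hg
          have hh' := (hmemi h).1 hh
          have hgh' := (hmemi (g * h)).1 (mul_mem hg hh)
          apply cp_inj' hc1
          have e1 := hθφ (g * h) hgh'.1 hgh'.2
          rw [hθ.mul g (hiU' hg) h (hiU' hh), hθφ g hg'.1 hg'.2, hθφ h hh'.1 hh'.2,
            hφ.mul g hg'.1 h hh'.1] at e1
          have e2 : φ g * φ h * (cp c (δ g) * cp c (δ h)) = φ g * φ h * cp c (δ (g * h)) := by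
            rw [← e1]
            calc φ g * φ h * (cp c (δ g) * cp c (δ h)) = φ g * (φ h * cp c (δ g)) * cp c (δ h) := by group
              _ = φ g * (cp c (δ g) * φ h) * cp c (δ h) := by rw [cp_comm' hcc (δ g) (φ h)]
              _ = φ g * cp c (δ g) * (φ h * cp c (δ h)) := by group
          rw [cp_mul' hc2]
          exact (mul_left_cancel e2).symm
        · obtain ⟨V1, hV1, hv1⟩ := hθ.cont
          obtain ⟨V2, hV2, hv2⟩ := hφ.cont
          refine ⟨V1 ⊓ V2, hV1.inter hV2, ?_⟩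
          intro v hv hvi
          rw [hδ1, hv1 v hv.1 (hiU' hvi), hv2 v hv.2 ((hmemi v).1 hvi).1]
      refine locn F K h2 (H i) (hH i).2 r τ (hLG.le i hr2) hr0 hτ hτr' X δ (homOn_mono hX (hH i).1) hδh ?_ ?_ s hs0
        (fun h hh => hs h ((hH i).1 hh))
      · intro h hh hhr
        have hhU' : h ∈ U' := (hmem h).2 ⟨(hH i).1 hh, hhr⟩
        have e1 := hf1 h hhU'
        have hc3 := hτconj h hh hhr
        rw [hθφ _ hc3.1 hc3.2, hθφ h hh hhr] at e1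
        have e3 : φ (τ * h * τ⁻¹) = φ τ * φ h * (φ τ)⁻¹ := by
          rw [hφ.mul _ ((H i).mul_mem hτ hh) _ ((H i).inv_mem hτ), hφ.mul τ hτ h hh, homOn_inv hφ hτ]
        rw [e3] at e1
        have e4 : φ τ * (φ h * cp c (δ h)) * (φ τ)⁻¹ * cp c (X h)
            = φ τ * φ h * (φ τ)⁻¹ * (cp c (δ h) * cp c (X h)) := by
          calc φ τ * (φ h * cp c (δ h)) * (φ τ)⁻¹ * cp c (X h)
              = φ τ * φ h * (cp c (δ h) * (φ τ)⁻¹) * cp c (X h) := by group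
            _ = φ τ * φ h * ((φ τ)⁻¹ * cp c (δ h)) * cp c (X h) := by rw [cp_comm' hcc (δ h) (φ τ)⁻¹]
            _ = _ := by group
        rw [e4, ← cp_mul' hc2] at e1
        have e5 := cp_inj' hc1 (mul_left_cancel e1)
        rw [e5, ← mul_assoc, Int.units_mul_self, one_mul]
      · have hττ : τ * τ ∈ H i ∧ (τ * τ) r = r := by
          refine ⟨(H i).mul_mem hτ hτ, ?_⟩
          rw [AlgEquiv.mul_apply, hτr', map_neg, hτr', neg_neg]
        rw [hθφ _ hττ.1 hττ.2, hφ.mul τ hτ τ hτ] at hf2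
        exact (cp_inj' hc1 (mul_left_cancel hf2)).symm
  have hglob : Nm (Fx U) (r ^ 2) (s ^ 2) :=
    hLG.loc _ hr2 _ hs2 (pow_ne_zero 2 hr0) (pow_ne_zero 2 hs0) hloc
  obtain ⟨δ, hδ, hδ1, hδ2⟩ := twist F K h2 hsq U r σ hr2 hr0 hσ hσr X s hs0 hs hglob
  obtain ⟨s₀, hs₀⟩ := hsurj (ψ σ)
  obtain ⟨hf1, hf2⟩ := hXf σ hσ hσn s₀ hs₀
  obtain ⟨θ, hθm, hθe, hθs⟩ := ext (K ≃ₐ[F] K) P U U' σ hle hσ hσn hout hconj hsqm (fun h => θ' h * cp c (δ h)) s₀
    (by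
      intro g hg h hh
      rw [hθ.mul g hg h hh, hδ.mul g hg h hh, cp_mul' hc2]
      calc θ' g * θ' h * (cp c (δ g) * cp c (δ h)) = θ' g * (θ' h * cp c (δ g)) * cp c (δ h) := by group
        _ = θ' g * (cp c (δ g) * θ' h) * cp c (δ h) := by rw [cp_comm' hcc (δ g) (θ' h)]
        _ = _ := by group)
    (by
      intro h hh
      have hhU := (hmem h).1 hh
      rw [hf1 h hh, hδ1 h hhU.1 hhU.2, cp_mul' hc2]
      have e1 : cp c (δ (σ * h * σ⁻¹)) * cp c (δ (σ * h * σ⁻¹)) = 1 := by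
        rw [← cp_mul' hc2, Int.units_mul_self, cp_one']
      calc s₀ * θ' h * s₀⁻¹ * (cp c (δ h) * cp c (δ (σ * h * σ⁻¹))) * cp c (δ (σ * h * σ⁻¹))
          = s₀ * θ' h * (s₀⁻¹ * cp c (δ h)) * (cp c (δ (σ * h * σ⁻¹)) * cp c (δ (σ * h * σ⁻¹))) := by group
        _ = s₀ * θ' h * (cp c (δ h) * s₀⁻¹) := by rw [e1, mul_one, cp_comm' hcc (δ h) s₀⁻¹]
        _ = _ := by group)
    (by
      rw [hf2, hδ2, mul_assoc, ← cp_mul' hc2, Int.units_mul_self, cp_one', mul_one])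
  refine ⟨θ, ⟨hθm, ?_⟩, ?_⟩
  · obtain ⟨V1, hV1, hv1⟩ := hθ.cont
    obtain ⟨V2, hV2, hv2⟩ := hδ.cont
    refine ⟨V1 ⊓ V2 ⊓ MulAction.stabilizer (K ≃ₐ[F] K) r, (hV1.inter hV2).inter hopen, ?_⟩
    intro v hv hvU
    have hvU' : v ∈ U' := Subgroup.mem_inf.2 ⟨hvU, hv.2⟩
    rw [hθe v hvU', hv1 v hv.1.1 hvU', hv2 v hv.1.2 hvU', cp_one', mul_one]
  · have hin : ∀ h ∈ U', π (θ h) = ψ h := by
      intro h hh
      have hhU := (hmem h).1 hh
      rw [hθe h hh, map_mul, map_cp hk, mul_one, hπθ h hhU.1 hhU.2]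
    intro g hg
    by_cases hg' : g ∈ U'
    · exact hin g hg'
    · have h3 := hout g hg hg'
      have h4 : g * σ⁻¹ * σ = g := by group
      rw [← h4, hθm _ (hle h3) σ hσ, hψ.mul _ (hle h3) σ hσ, map_mul, hin _ h3, hθs, hs₀]

end Pool.Agent.P8H54.FP
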