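import Pool.Agent.P8H54.FP.Desc

/-! # Project FP, package EMB: embedding problems with kernel of order two -/

set_option autoImplicit false

namespace Pool.Agent.P8H54.FP

open Pool.Agent.P8H47.FP

theorem emb : S_EMB := by
  intro kum step desc F K _ _ _ _ h2 hsq P Q _ _ _ π c hQ hsurj hk hc1 hcc
  classical
  suffices hmain : ∀ (n : ℕ) (ι : Type) (U : Subgroup (K ≃ₐ[F] K)) (H : ι → Subgroup (K ≃ₐ[F] K)),
      IsClosed (U : Set (K ≃ₐ[F] K)) → (∀ i, H i ≤ U ∧ IsClosed (H i : Set (K ≃ₐ[F] K))) →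
      LG (Fx U) (fun i => Fx (H i)) → ∀ ψ : (K ≃ₐ[F] K) → Q, HomOn U ψ → (ψ '' (U : Set (K ≃ₐ[F] K))).ncard ≤ n →
      Emb U H π ψ by
    intro ι U H hU hH hLG ψ hψ
    exact hmain _ ι U H hU hH hLG ψ hψ le_rfl
  intro n
  induction n with
  | zero =>
    intro ι U H hU hH hLG ψ hψ hn
    exfalso
    have h3 : (ψ '' (U : Set (K ≃ₐ[F] K))).Nonempty := ⟨ψ 1, 1, U.one_mem, rfl⟩
    have h4 := (Set.ncard_pos (Set.toFinite _)).2 h3
    omega
  | succ n ih =>
    intro ι U H hU hH hLG ψ hψ hn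
    by_cases htriv : ∀ g ∈ U, ψ g = 1
    · intro _
      refine ⟨fun _ => 1, ⟨fun _ _ _ _ => (mul_one 1).symm, ⊤, isOpen_univ, fun _ _ _ => rfl⟩, ?_⟩
      intro g hg
      rw [htriv g hg]
      exact map_one π
    push Not at htriv
    obtain ⟨g₀, hg₀, hψg₀⟩ := htriv
    -- a subgroup of index two
    let ψU : U →* Q :=
      { toFun := fun u => ψ u
        map_one' := homOn_one hψ
        map_mul' := fun a b => hψ.mul a a.2 b b.2 }
    obtain ⟨S, hSker, hSi⟩ : ∃ S : Subgroup U, ψU.ker ≤ S ∧ S.index = 2 := by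
      have hR : IsPGroup 2 ψU.range := by
        obtain ⟨k, hk'⟩ := hQ
        exact (IsPGroup.of_card hk').to_subgroup _
      obtain ⟨m, hm⟩ := hR.exists_card_eq
      have hm0 : m ≠ 0 := by
        rintro rfl
        rw [pow_zero] at hm
        have h3 : Subsingleton ψU.range := (Nat.card_eq_one_iff_unique.1 hm).1
        have h4 : (⟨ψU ⟨g₀, hg₀⟩, ⟨_, rfl⟩⟩ : ψU.range) = 1 := Subsingleton.elim _ _
        have h5 : ψU ⟨g₀, hg₀⟩ = 1 := congrArg Subtype.val h4
        exact hψg₀ h5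
      obtain ⟨m', rfl⟩ := Nat.exists_eq_succ_of_ne_zero hm0
      have hdvd : 2 ^ m' ∣ Nat.card ψU.range := by
        rw [hm]
        exact pow_dvd_pow 2 (Nat.le_succ m')
      have : Fact (Nat.Prime 2) := ⟨Nat.prime_two⟩
      obtain ⟨R₁, hR₁⟩ := Sylow.exists_subgroup_card_pow_prime 2 hdvd
      have hidx : R₁.index = 2 := by
        have h3 := R₁.card_mul_index
        rw [hR₁, hm, pow_succ] at h3
        exact Nat.eq_of_mul_eq_mul_left (pow_pos (by norm_num) m') h3
      refine ⟨R₁.comap ψU.rangeRestrict, ?_, ?_⟩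
      · intro u hu
        rw [Subgroup.mem_comap]
        have h3 : ψU.rangeRestrict u = 1 := by
          apply Subtype.ext
          exact hu
        rw [h3]
        exact R₁.one_mem
      · rw [Subgroup.index_comap_of_surjective _ ψU.rangeRestrict_surjective, hidx]
    let χ : (K ≃ₐ[F] K) → ℤˣ := fun g => if ∃ hg : g ∈ U, (⟨g, hg⟩ : U) ∈ S then 1 else -1
    have hχ1 : ∀ g (hg : g ∈ U), χ g = 1 ↔ (⟨g, hg⟩ : U) ∈ S := by
      intro g hg
      simp only [χ]
      constructor
      · intro h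
        by_contra h3
        rw [if_neg] at h
        · exact absurd h (by decide)
        · rintro ⟨h4, h5⟩
          exact h3 h5
      · intro h
        rw [if_pos ⟨hg, h⟩]
    have hχdi : ∀ g, χ g = 1 ∨ χ g = -1 := fun g => Int.units_eq_one_or _
    have hχ : HomOn U χ := by
      constructor
      · intro g hg h hh
        have h3 := Subgroup.mul_mem_iff_of_index_two hSi (a := (⟨g, hg⟩ : U)) (b := ⟨h, hh⟩)
        have h4 := hχ1 (g * h) (U.mul_mem hg hh)
        have h5 : ((⟨g * h, U.mul_mem hg hh⟩ : U) ∈ S) ↔ ((⟨g, hg⟩ : U) * ⟨h, hh⟩ ∈ S) := Iff.rfl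
        rw [h5, h3, ← hχ1 g hg, ← hχ1 h hh] at h4
        rcases hχdi g with h6 | h6 <;> rcases hχdi h with h7 | h7 <;> rcases hχdi (g * h) with h8 | h8 <;>
          rw [h6, h7, h8] at h4 ⊢ <;> first | rfl | (exfalso; revert h4; decide) | (revert h4; decide)
      · obtain ⟨V, hV, hv⟩ := hψ.cont
        refine ⟨V, hV, ?_⟩
        intro v hvV hvU
        rw [hχ1 v hvU]
        apply hSker
        exact hv v hvV hvU
    obtain ⟨r, hr0, hr⟩ := kum F K U hU χ hχ
    have hr2 : r ^ 2 ∈ Fx U := by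
      rw [mem_Fx]
      intro h hh
      rw [map_pow, hr h hh]
      rcases hχdi h with h3 | h3 <;> rw [h3] <;> simp
    obtain ⟨σ, hσ, hχσ⟩ : ∃ σ ∈ U, χ σ = -1 := by
      by_contra hcon
      push Not at hcon
      have h3 : S = ⊤ := by
        rw [eq_top_iff]
        intro u _
        have h4 := (hχdi u).resolve_right (hcon u u.2)
        exact (hχ1 u u.2).1 h4
      rw [h3, Subgroup.index_top] at hSi
      omega
    have hσr : σ r = - r := by
      rw [hr σ hσ, hχσ]
      simp
    obtain ⟨hmem, hrr, hdi, hinv, hout, hconj, hsqm⟩ := quad h2 hr2 hr0 hσ hσr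
    have hopen : IsOpen ((MulAction.stabilizer (K ≃ₐ[F] K) r : Subgroup (K ≃ₐ[F] K)) : Set (K ≃ₐ[F] K)) :=
      stabilizer_isOpen_of_isIntegral r
    have hclosed : IsClosed ((MulAction.stabilizer (K ≃ₐ[F] K) r : Subgroup (K ≃ₐ[F] K)) : Set (K ≃ₐ[F] K)) :=
      OpenSubgroup.isClosed ⟨_, hopen⟩
    have hstab : ∀ g ∈ U, g r = r → χ g = 1 := by
      intro g hg hgr
      rcases hχdi g with h3 | h3
      · exact h3
      · exfalso
        rw [hr g hg, h3] at hgr
        apply hrr
        have h4 : - r = r := by simpa using hgr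
        exact h4.symm
    intro hemb
    refine desc F K h2 hsq ι U H hU hH hLG r σ hr2 hr0 hσ hσr P Q π c hsurj hk hc1 hcc ψ hψ ?_ hemb
    have hle : U ⊓ MulAction.stabilizer (K ≃ₐ[F] K) r ≤ U := inf_le_left
    have hψ' := homOn_mono hψ hle
    have hcard : (ψ '' ((U ⊓ MulAction.stabilizer (K ≃ₐ[F] K) r : Subgroup (K ≃ₐ[F] K)) : Set (K ≃ₐ[F] K))).ncard
        ≤ n := by
      have h3 : (ψ '' ((U ⊓ MulAction.stabilizer (K ≃ₐ[F] K) r : Subgroup (K ≃ₐ[F] K)) : Set (K ≃ₐ[F] K))) ⊂
          ψ '' (U : Set (K ≃ₐ[F] K)) := by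
        rw [Set.ssubset_iff_of_subset (Set.image_mono (fun g hg => hle hg))]
        refine ⟨ψ σ, ⟨σ, hσ, rfl⟩, ?_⟩
        rintro ⟨g, hg, hgσ⟩
        have hg' := (hmem g).1 hg
        have h4 := hstab g hg'.1 hg'.2
        rw [hχ1 g hg'.1] at h4
        have h5 : (⟨g, hg'.1⟩ : U)⁻¹ * ⟨σ, hσ⟩ ∈ S := by
          apply hSker
          rw [MonoidHom.mem_ker, map_mul, map_inv, inv_mul_eq_one]
          exact hgσ
        have h6 : (⟨σ, hσ⟩ : U) ∈ S := by
          have h7 := S.mul_mem h4 h5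
          rwa [mul_inv_cancel_left] at h7
        rw [← hχ1 σ hσ, hχσ] at h6
        exact absurd h6 (by decide)
      have h4 := Set.ncard_lt_ncard h3 (Set.toFinite _)
      omega
    have hfam : ∀ q : {q : ι × Bool // q.2 = true → r ∈ Fx (H q.1)},
        famG H r σ q ≤ U ⊓ MulAction.stabilizer (K ≃ₐ[F] K) r ∧ IsClosed (famG H r σ q : Set (K ≃ₐ[F] K)) := by
      rintro ⟨⟨i, b⟩, hb⟩
      cases b with
      | true =>
        have hri := mem_Fx.1 (hb rfl)
        simp only [famG, if_true]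
        constructor
        · rintro g ⟨h, hh, rfl⟩
          have h3 : h ∈ U ⊓ MulAction.stabilizer (K ≃ₐ[F] K) r := (hmem h).2 ⟨(hH i).1 hh, hri h hh⟩
          exact hconj h h3
        · have h3 : (((H i).map (MulAut.conj σ).toMonoidHom : Subgroup (K ≃ₐ[F] K)) : Set (K ≃ₐ[F] K))
              = (fun g => σ⁻¹ * g * σ) ⁻¹' (H i : Set (K ≃ₐ[F] K)) := by
            ext g
            constructor
            · rintro ⟨h, hh, rfl⟩
              have h4 : σ⁻¹ * ((MulAut.conj σ).toMonoidHom h) * σ = h := by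
                simp [MulAut.conj_apply, mul_assoc]
              rw [Set.mem_preimage, h4]
              exact hh
            · intro hg
              refine ⟨σ⁻¹ * g * σ, hg, ?_⟩
              simp [MulAut.conj_apply, mul_assoc]
          rw [h3]
          exact (hH i).2.preimage (by fun_prop)
      | false =>
        simp only [famG, Bool.false_eq_true, if_false]
        refine ⟨inf_le_inf_right _ (hH i).1, (hH i).2.inter hclosed⟩
    have hlg' := step F K h2 ι U H (fun i => (hH i).1) hLG r σ hr2 hσ hσr hr0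
    have hemb' : ∀ q : {q : ι × Bool // q.2 = true → r ∈ Fx (H q.1)},
        ∃ φ : (K ≃ₐ[F] K) → P, HomOn (famG H r σ q) φ ∧ ∀ h ∈ famG H r σ q, π (φ h) = ψ h := by
      rintro ⟨⟨i, b⟩, hb⟩
      obtain ⟨φ, hφ, hπφ⟩ := hemb i
      cases b with
      | true =>
        simp only [famG, if_true]
        obtain ⟨s, hs⟩ := hsurj (ψ σ)
        have hmapmem : ∀ g, g ∈ (H i).map (MulAut.conj σ).toMonoidHom ↔ σ⁻¹ * g * σ ∈ H i := by
          intro g
          constructor
          · rintro ⟨h, hh, rfl⟩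
            have h4 : σ⁻¹ * ((MulAut.conj σ).toMonoidHom h) * σ = h := by
              simp [MulAut.conj_apply, mul_assoc]
            rw [h4]
            exact hh
          · intro hg
            refine ⟨σ⁻¹ * g * σ, hg, ?_⟩
            simp [MulAut.conj_apply, mul_assoc]
        refine ⟨fun g => s * φ (σ⁻¹ * g * σ) * s⁻¹, ⟨?_, ?_⟩, ?_⟩
        · intro g hg h hh
          rw [hmapmem] at hg hh
          have h3 : σ⁻¹ * (g * h) * σ = (σ⁻¹ * g * σ) * (σ⁻¹ * h * σ) := by group
          rw [h3, hφ.mul _ hg _ hh]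
          group
        · obtain ⟨V, hV, hv⟩ := hφ.cont
          refine ⟨V.comap (MulAut.conj σ⁻¹).toMonoidHom, ?_, ?_⟩
          · have h3 : ((V.comap (MulAut.conj σ⁻¹).toMonoidHom : Subgroup (K ≃ₐ[F] K)) : Set (K ≃ₐ[F] K))
                = (fun g => σ⁻¹ * g * σ) ⁻¹' (V : Set (K ≃ₐ[F] K)) := by
              ext g
              simp
            rw [h3]
            exact hV.preimage (by fun_prop)
          · intro v hvV hvm
            rw [hmapmem] at hvm
            have h4 : σ⁻¹ * v * σ ∈ V := by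
              have h5 : (MulAut.conj σ⁻¹).toMonoidHom v ∈ V := hvV
              simpa [MulAut.conj_apply] using h5
            simp [hv _ h4 hvm]
        · intro h hh
          rw [hmapmem] at hh
          have hhU := (hH i).1 hh
          rw [map_mul, map_mul, map_inv, hs, hπφ _ hh, ← homOn_inv hψ hσ, ← hψ.mul σ hσ _ hhU,
            ← hψ.mul _ (U.mul_mem hσ hhU) _ (U.inv_mem hσ)]
          congr 1
          group
      | false =>
        simp only [famG, Bool.false_eq_true, if_false]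
        exact ⟨φ, homOn_mono hφ inf_le_left, fun h hh => hπφ h hh.1⟩
    obtain ⟨θ', hθ', hπθ'⟩ := ih _ _ (famG H r σ) (hU.inter hclosed) hfam hlg' ψ hψ' hcard hemb'
    exact ⟨θ', hθ', fun g hg hgr => hπθ' g ((hmem g).2 ⟨hg, hgr⟩)⟩

end Pool.Agent.P8H54.FP
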